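import Pool.Agent.Q43.PM.Final

/-!
# Unions of length sets in reduced finitary power monoids are intervals

For every monoid `H` (not assumed commutative or cancellative) and every `k ≥ 1` the union
`U_k` of all length sets of `P_{fin,1}(H)` that contain `k` is an interval. The theorem also
gives all these sets:

* some `x ≠ 1` in `H` has `x * x = 1` or `x * x = x`: `U_k = {1, 2, 3, …}` for all `k ≥ 1`;
* there is no such `x`, `H` is not trivial and does not have exactly five elements: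
  `U_1 = {1}` and `U_k = {2, 3, …}` for `k ≥ 2`;
* there is no such `x` and `H` has five elements: `U_1 = {1}`, `U_2 = {2, 3}`,
  `U_3 = {2, 3, …}`, `U_k = {3, 4, …}` for `k ≥ 4`;
* `H` is trivial: `U_k` is empty for all `k ≥ 1`.
-/

namespace Pool.Agent.Results.MP_43520b_al.UnionsAreIntervals

open Pointwise Q43.PM

theorem result.{u} :
    (∀ (H : Type u) [Monoid H] (k : ℕ), 1 ≤ k → IsInterval (Unions (PfinOne H) k)) ∧
    (∀ (H : Type u) [Monoid H], (∃ x : H, x ≠ 1 ∧ (x * x = 1 ∨ x * x = x)) →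
      ∀ k, 1 ≤ k → Unions (PfinOne H) k = {m | 1 ≤ m}) ∧
    (∀ (H : Type u) [Monoid H] [Nontrivial H],
      (¬ ∃ x : H, x ≠ 1 ∧ (x * x = 1 ∨ x * x = x)) → Nat.card H ≠ 5 →
      Unions (PfinOne H) 1 = {1} ∧ ∀ k, 2 ≤ k → Unions (PfinOne H) k = {m | 2 ≤ m}) ∧
    (∀ (H : Type u) [Monoid H],
      (¬ ∃ x : H, x ≠ 1 ∧ (x * x = 1 ∨ x * x = x)) → Nat.card H = 5 →
      Unions (PfinOne H) 1 = {1} ∧ Unions (PfinOne H) 2 = {2, 3} ∧
        Unions (PfinOne H) 3 = {m | 2 ≤ m} ∧
        ∀ k, 4 ≤ k → Unions (PfinOne H) k = {m | 3 ≤ m}) ∧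
    (∀ (H : Type u) [Monoid H] [Subsingleton H] (k : ℕ), 1 ≤ k →
      Unions (PfinOne H) k = ∅) :=
  ⟨fun _ _ _ hk => isInterval_unions hk,
    fun _ _ h _ hk => unions_small h hk,
    fun _ _ _ hN h5 => unions_other hN h5,
    fun _ _ hN h5 => unions_five hN h5,
    fun _ _ _ _ hk => unions_trivial hk⟩

end Pool.Agent.Results.MP_43520b_al.UnionsAreIntervals
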